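import Pool.Agent.H33.VW.Boxf
import Pool.Agent.H71.XR.S

/-!
# Closed gradients over a follower: the facts of the class

Over slope-one places `c 0, …, c (k - 1)`: a follower `c k` of slope `al` and the last place
`c (k + 1)` of slope `be ≥ al` (`FBox` with `f = 1`). `LK`: the labels of one event. `VfStmt`: the
digits of the follower are full over the far path of the slope-one places and the record of a window.
`NlNStmt`: no look-ahead for the last place, over the digits of the follower and over the far path.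
-/

set_option autoImplicit false

namespace Pool.KE30

open Finset Real MvPolynomial
open Pool.Agent.H49.Ent Pool.Agent.H32.Dense
open Pool.STK hiding pr2
open Pool.KA Pool.KSAT Pool.K2S Pool.PB Pool.S6C
open Pool.GEN Pool.CHT Pool.CHX Pool.ISO Pool.LA91 Pool.AVG71 Pool.AVG5 Pool.D2F2 Pool.AVG57
open Pool.RCD Pool.AVG96 Pool.OWN68 Pool.V0F Pool.V0S
open Pool.AJW (CfB)
open Pool.KVA (MI)
open Pool.VW33 (FBox)
open Pool.XR71 (nh)
open Pool.GRD (LbP)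

/-- **The labels of one event**: the slope-one places over the window `b`, the follower `c k` and the
last place `c (k + 1)` over the window `w`. -/
structure LK {m J : ℕ} (F : Fam m J) (c : ℕ → Fin m) (k D : ℕ) (b w φ E : ℝ) (sn : ℕ → ℝ → ℝ)
    (A : F.Ω → Prop) (Hb Hw H : LnT F → ℕ → MvPolynomial (Option (Fin m)) ℝ) : Prop where
  ld : LD F c k D b w φ E sn A Hb Hw H
  ln : ∃ (V : Type) (z : PtT F → V) (z' : LnT F → V) (G : V → MvPolynomial (Option (Fin m)) ℝ),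
    LbP F ((range (k + 1)).image c) (c (k + 1)) D J ⌊w * J⌋₊ ⌊(sn (k + 1) w - φ) * J⌋₊ A z z' G ∧
      ∀ s, G (z' s) = H s (k + 1)
  cn : CfB F ⌊w * J⌋₊ E (c (k + 1)) A (fun s => s) (fun s => H s (k + 1))

/-- **The digits of the far path**: heights `ne`, velocities `Pe`, at least `T u` behind the natural
ones of `w`. -/
def FarD (k : ℕ) (sn : ℕ → ℝ → ℝ) (w u T : ℝ) (ne Pe : ℕ → ℝ) : Prop :=
  ∀ l < k, sn l w + T * u ≤ ne l ∧ ne l ≤ sn l w + (T + 1) * u ∧ sn l w - w + T * u ≤ Pe l ∧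
    Pe l ≤ sn l w - w + (T + k + 2) * u

/-- The digits `n` of the height of the place `l` over its label of the window `w`. -/
noncomputable def hk {m J : ℕ} (F : Fam m J) (c : ℕ → Fin m) (w : ℝ)
    (H : LnT F → ℕ → MvPolynomial (Option (Fin m)) ℝ) (l : ℕ) (n : ℝ) (ω : F.Ω) : ℤ :=
  ⌊(2 : ℝ) ^ (n * J) * ojet F (c l) 0 (H (slam F ⌊w * J⌋₊ ω) l) ω⌋

/-- The far path of the slope-one places. -/
noncomputable def fk {m J : ℕ} (F : Fam m J) (c : ℕ → Fin m) (k : ℕ) (w : ℝ)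
    (H : LnT F → ℕ → MvPolynomial (Option (Fin m)) ℝ) (ne Pe : ℕ → ℝ) (ω : F.Ω) :=
  (jh F c k ⌊w * J⌋₊ H ne ω, jv F c k ⌊w * J⌋₊ H Pe ω)

/-- **(F1)** The digits of the follower behind the natural ones of the window `a` are full over the
far path and the record of `a`. -/
def VfStmt : Prop := ∀ (k : ℕ) (al be h T δ : ℝ), 1 ≤ k → 1 ≤ T → 0 < δ → ∃ φ₁ : ℝ, 0 < φ₁ ∧
  ∀ {m : ℕ} {S : PCl m} {c : ℕ → Fin m} {sn sp : ℕ → ℝ → ℝ} {G : Set ℝ}
    {b o w u Λ φ e : ℝ} {lam : ℝ → ℝ}, FBox S c k 1 sn sp G al be h b o w u Λ φ e lam →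
    4 * T + 4 * k + 20 ≤ Λ → φ ≤ φ₁ * u → 0 ≤ e → e ≤ φ₁ →
    ∀ {w₁ : ℚ} {a nq nX : ℝ}, w ≤ w₁ → (w₁ : ℝ) ≤ w + φ → a ∈ G → w₁ ≤ a → a ≤ w + T * u →
    sn k a ≤ nq → nq ≤ nX → nX ≤ sn k w + T * u →
    ∀ (D : ℕ) (E : ℝ), Bas S (fun J F A =>
      ∀ (Hb Hw H : LnT F → ℕ → MvPolynomial (Option (Fin m)) ℝ),
      LD F c k D b w φ E sn A Hb Hw H →
      ∀ ne Pe : ℕ → ℝ, FarD k sn w u T ne Pe →
      ((nX - nq) * Real.log 2 - δ * u) * J ≤
        CH (Pool.Agent.H49.Ent.cond F.p A True) (hk F c w H k nX)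
          (fun ω => (hk F c w H k nq ω, (fk F c k w H ne Pe ω, (cR F A a ω, F.W ω)))))

/-- **(F2)** No look-ahead: the record of `j` says nothing about the digits `(nq, nX]` of the last
place, over the digits `vX` of the follower and over the far path. -/
def NlNStmt : Prop := ∀ (k : ℕ) (al be h T δ : ℝ), 1 ≤ k → 1 ≤ T → 0 < δ → ∃ φ₁ : ℝ, 0 < φ₁ ∧
  ∀ {m : ℕ} {S : PCl m} {c : ℕ → Fin m} {sn sp : ℕ → ℝ → ℝ} {G : Set ℝ}
    {b o w u Λ φ e : ℝ} {lam : ℝ → ℝ}, FBox S c k 1 sn sp G al be h b o w u Λ φ e lam →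
    4 * T + 4 * k + 20 ≤ Λ → φ ≤ φ₁ * u → 0 ≤ e → e ≤ φ₁ →
    ∀ {w₁ : ℚ} {j nq nX vX : ℝ}, w ≤ w₁ → (w₁ : ℝ) ≤ w + φ → w₁ ≤ j → j ≤ w + u →
    sn (k + 1) w + be * (j - w) ≤ nq → nq ≤ nX → sn k w + (nX - sn (k + 1) w) ≤ vX →
    vX ≤ sn k w + T * u →
    ∀ (D : ℕ) (E : ℝ), Bas S (fun J F A =>
      ∀ (Hb Hw H : LnT F → ℕ → MvPolynomial (Option (Fin m)) ℝ),
      LK F c k D b w φ E sn A Hb Hw H →
      ∀ ne Pe : ℕ → ℝ, FarD k sn w u T ne Pe →
      MI (Pool.Agent.H49.Ent.cond F.p A True) (cR F A j) (hk F c w H (k + 1) nX)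
        (fun ω => (hk F c w H (k + 1) nq ω, (hk F c w H k vX ω, (fk F c k w H ne Pe ω,
          (cR F A w₁ ω, F.W ω))))) ≤ δ * u * J)

end Pool.KE30
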