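import Pool.Agent.H56.V0S.EvD

/-!
# Moved places with a side path: the codes of order at least two over the side path

`ac_stmtF`, `ac_vaF`: the codes of the moved places from their jets of orders `0`, `1` and from their
codes of order `≥ 2`, which are few bits given a function of the context and of the time. `vs_finF`: as
`Pool.V0S.vs_finD` (helper56), the moved places are any places `c 0, …, c (r - 1)` whose codes of order
`≥ 2` are few bits given the side path, the record and the time.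
-/

set_option autoImplicit false

namespace Pool.KE30

open Finset Real MvPolynomial
open Pool.Agent.H49.Ent Pool.Agent.H32.Dense
open Pool.STK hiding pr2
open Pool.KA Pool.KSAT Pool.K2S Pool.PB Pool.S6C
open Pool.GEN Pool.CHT Pool.CHX Pool.ISO Pool.LA91 Pool.AVG71 Pool.AVG5 Pool.D2F2
open Pool.AVG57 hiding cod
open Pool.PB.Trl (rt rt_mem t_rt)
open Pool.KVA (MI)
open Pool.KAF (rs Pr)
open Pool.FS21 (oth)
open Pool.BFL (Pb)
open Pool.V0F (jh jv Vv th0 CH_ge CH_jh jet2_jh jet2_jv jhv_jet2 CH_tr mi_side cE0_le)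
open Pool.VS64 (adP GrdP PrP Mt Evp pp_clo adP_ti)
open Pool.LV64 (VD Vm)
open Pool.V0F97 (codf ac_near)
open Pool.V0S

variable {m J : ℕ}

section

variable {F : Fam m J} {c : ℕ → Fin m} {r n q w W X mm : ℕ} {γ : ℕ → ℕ}
  {G : ℕ → PtT F → ℕ → MvPolynomial (Option (Fin m)) ℝ}
  {H : LnT F → ℕ → MvPolynomial (Option (Fin m)) ℝ} {ζ : Type} {zw : F.Ω → ζ}

/-- The codes of order `≥ 2` are few bits given the context. -/
theorem codf_leF {p : F.Ω → ℝ} (hp : IsLaw p) {K : ℕ} {e : ℝ} {ω' : Type} {Wc : F.Ω → ω'}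
    (hWc : ∀ ω ν, (adM F c 0 r n q w W X mm γ G H zw).th ω =
      (adM F c 0 r n q w W X mm γ G H zw).th ν → (adM F c 0 r n q w W X mm γ G H zw).z ω =
      (adM F c 0 r n q w W X mm γ G H zw).z ν → Wc ω = Wc ν)
    (he : ∀ l < r, CH p (cod F W 2 K (2 ^ (γ l + q + (X + mm))) (c l) (fun s => upw w W s)
      (fun s => H s l)) Wc ≤ e) (N : ℕ → ℕ → ℝ) :
    CH p (codf F c r q w W X mm K γ H) (fun ω => (jet2 F c w H 0 r N ω,
      ((adM F c 0 r n q w W X mm γ G H zw).th ω, (adM F c 0 r n q w W X mm γ G H zw).z ω))) ≤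
      r * e := by
  refine ch_vec hp.nonneg _ r (codf F c r q w W X mm K γ H) fun l => ?_
  refine le_trans (CH_mono_cond hp.nonneg fun ω ν _ _ h => ?_) (he l l.2)
  simp only [Prod.mk.injEq] at h
  exact hWc ω ν h.2.1 h.2.2

end

/-- **The codes of the base coordinates** are few bits given the digits of the jets of the orders
`0`, `1` and the context. -/
theorem ac_stmtF (r K : ℕ) : ∃ C : ℝ, 0 ≤ C ∧ ∀ {m J : ℕ} {F : Fam m J} {c : ℕ → Fin m}
    {n q w W X mm D : ℕ} {γ : ℕ → ℕ} {G : ℕ → PtT F → ℕ → MvPolynomial (Option (Fin m)) ℝ}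
    {H : LnT F → ℕ → MvPolynomial (Option (Fin m)) ℝ} {ζ : Type} {zw : F.Ω → ζ} {p : F.Ω → ℝ}
    {e : ℝ} {ω' : Type} {Wc : F.Ω → ω'}, IsLaw p → w ≤ W → W ≤ J →
    (∀ s l, (H s l).totalDegree ≤ D) → D + 1 ≤ K → 0 ≤ e →
    (∀ ω ν, (adM F c 0 r n q w W X mm γ G H zw).th ω =
      (adM F c 0 r n q w W X mm γ G H zw).th ν → (adM F c 0 r n q w W X mm γ G H zw).z ω =
      (adM F c 0 r n q w W X mm γ G H zw).z ν → Wc ω = Wc ν) →
    (∀ l < r, CH p (cod F W 2 K (2 ^ (γ l + q + (X + mm))) (c l) (fun s => upw w W s)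
      (fun s => H s l)) Wc ≤ e) →
    (∀ N : ℕ → ℕ → ℝ, (∀ l < r, ((γ l + q + (X + mm) : ℕ) : ℝ) ≤ N l 0 * J) →
      (∀ l < r, ((γ l + q + (X + mm) : ℕ) : ℝ) ≤ N l 1 * J + W) →
      CH p ((adM F c 0 r n q w W X mm γ G H zw).ac K) (fun ω =>
        (jet2 F c w H 0 r N ω, ((adM F c 0 r n q w W X mm γ G H zw).th ω,
          (adM F c 0 r n q w W X mm γ G H zw).z ω))) ≤ r * e + C) ∧
    ∀ N : ℕ → ℕ → ℝ, (∀ l < r, ((γ l + q : ℕ) : ℝ) ≤ N l 0 * J) →
      (∀ l < r, ((γ l + q + (X + mm) : ℕ) : ℝ) ≤ N l 1 * J + W) →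
      CH p (fun ω => ((adM F c 0 r n q w W X mm γ G H zw).v K ω).2) (fun ω =>
        (jet2 F c w H 0 r N ω, ((adM F c 0 r n q w W X mm γ G H zw).th ω,
          (adM F c 0 r n q w W X mm γ G H zw).z ω))) ≤ r * e + C := by
  refine ⟨r * ((K + 1 : ℕ) * Pool.V0F97.cA K), mul_nonneg (Nat.cast_nonneg r)
    (mul_nonneg (Nat.cast_nonneg _) (Pool.V0F97.cA_nonneg K)), ?_⟩
  intro m J F c n q w W X mm D γ G H ζ zw p e ω' Wc hp hwW hW hH hK he hWc hcod
  have h0 := hp.nonneg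
  have hcard : (Fintype.card (Fin r × Fin (K + 1)) : ℝ) * Pool.V0F97.cA K = r * ((K + 1 : ℕ) * Pool.V0F97.cA K) := by
    rw [Fintype.card_prod, Fintype.card_fin, Fintype.card_fin]
    push_cast
    ring
  have hp2 : (0 : ℝ) < 2 ^ (K + 1) * 2 ^ (K + 1) := by positivity
  constructor
  · intro N hN0 hN1
    have s1 := CH_le_add h0 ((adM F c 0 r n q w W X mm γ G H zw).ac K)
      (codf F c r q w W X mm K γ H) (fun ω =>
        (jet2 F c w H 0 r N ω, ((adM F c 0 r n q w W X mm γ G H zw).th ω,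
          (adM F c 0 r n q w W X mm γ G H zw).z ω)))
    have s2 := codf_leF (n := n) (G := G) (zw := zw) hp hWc hcod N
    have s3 := CH_near (ι := Fin r × Fin (K + 1)) hp
      (fun ω i => (adM F c 0 r n q w W X mm γ G H zw).ac K ω i.1 i.2)
      (fun ω => (codf F c r q w W X mm K γ H ω, (jet2 F c w H 0 r N ω,
        ((adM F c 0 r n q w W X mm γ G H zw).th ω,
          (adM F c 0 r n q w W X mm γ G H zw).z ω))))
      (D := 2 ^ (K + 1) * 2 ^ (K + 1) + 3) (by positivity) (by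
        intro ω ν hω hν hh i
        simp only [Prod.mk.injEq] at hh
        obtain ⟨b1, b2, b3, b4⟩ := hh
        have hδ : ∀ l < r, (2 : ℝ) ^ (γ l + q) / 2 ^ (N l 0 * J) ≤ 1 / 2 ^ (X + mm) := by
          intro l hl
          have p3 : (0 : ℝ) < 2 ^ (N l 0 * J) := Real.rpow_pos_of_pos two_pos _
          rw [div_le_div_iff₀ p3 (by positivity), one_mul, ← pow_add, ← Real.rpow_natCast]
          exact Real.rpow_le_rpow_of_exponent_le one_le_two (hN0 l hl)
        obtain ⟨a1, a0⟩ := ac_near (n := n) (G := G) (zw := zw) hwW hW hH hK hN1 le_rfl hδ b2 b3 i.1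
          (congrFun b1 i.1)
        rcases Nat.eq_zero_or_pos (i.2 : ℕ) with h5 | h5
        · have h6 : i.2 = 0 := Fin.ext h5
          rw [h6]
          refine a0.trans ?_
          have e5 : (2 : ℝ) ^ (X + mm) * (2 ^ (K + 1) * (2 ^ (K + 1) * (1 / 2 ^ (X + mm)))) =
            2 ^ (K + 1) * 2 ^ (K + 1) := by field_simp
          rw [e5]
          linarith
        · exact (a1 i.2 h5).trans (by linarith))
    have s4 : CH p ((adM F c 0 r n q w W X mm γ G H zw).ac K)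
        (fun ω => (codf F c r q w W X mm K γ H ω, (jet2 F c w H 0 r N ω,
          ((adM F c 0 r n q w W X mm γ G H zw).th ω,
            (adM F c 0 r n q w W X mm γ G H zw).z ω)))) ≤
        CH p (fun ω (i : Fin r × Fin (K + 1)) =>
          (adM F c 0 r n q w W X mm γ G H zw).ac K ω i.1 i.2)
          (fun ω => (codf F c r q w W X mm K γ H ω, (jet2 F c w H 0 r N ω,
          ((adM F c 0 r n q w W X mm γ G H zw).th ω,
            (adM F c 0 r n q w W X mm γ G H zw).z ω)))) := by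
      refine CH_mono_left h0 fun ω ν _ _ hh => ?_
      have h2 := (Prod.ext_iff.mp hh).1
      funext j a
      exact congrFun h2 (j, a)
    have s5 : (Fintype.card (Fin r × Fin (K + 1)) : ℝ) *
        Real.log (2 * (2 ^ (K + 1) * 2 ^ (K + 1) + 3) + 1) = r * ((K + 1 : ℕ) * Pool.V0F97.cA K) := hcard
    rw [s5] at s3
    linarith
  · intro N hN0 hN1
    have s1 := CH_le_add h0 (fun ω => ((adM F c 0 r n q w W X mm γ G H zw).v K ω).2)
      (codf F c r q w W X mm K γ H) (fun ω =>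
        (jet2 F c w H 0 r N ω, ((adM F c 0 r n q w W X mm γ G H zw).th ω,
          (adM F c 0 r n q w W X mm γ G H zw).z ω)))
    have s2 := codf_leF (n := n) (G := G) (zw := zw) hp hWc hcod N
    have s3 := CH_near (ι := Fin r × Fin (K + 1)) hp
      (fun ω i => if (i.2 : ℕ) = 0 then
        (adM F c 0 r n q w W X mm γ G H zw).ac K ω i.1 0 / 2 ^ (X + mm) else
        (adM F c 0 r n q w W X mm γ G H zw).ac K ω i.1 i.2)
      (fun ω => (codf F c r q w W X mm K γ H ω, (jet2 F c w H 0 r N ω,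
        ((adM F c 0 r n q w W X mm γ G H zw).th ω,
          (adM F c 0 r n q w W X mm γ G H zw).z ω))))
      (D := 2 ^ (K + 1) * 2 ^ (K + 1) + 3) (by positivity) (by
        intro ω ν hω hν hh i
        simp only [Prod.mk.injEq] at hh
        obtain ⟨b1, b2, b3, b4⟩ := hh
        have hδ : ∀ l < r, (2 : ℝ) ^ (γ l + q) / 2 ^ (N l 0 * J) ≤ 1 := by
          intro l hl
          have p3 : (0 : ℝ) < 2 ^ (N l 0 * J) := Real.rpow_pos_of_pos two_pos _
          rw [div_le_one p3, ← Real.rpow_natCast]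
          exact Real.rpow_le_rpow_of_exponent_le one_le_two (hN0 l hl)
        have h11 : (1 : ℝ) / 2 ^ (X + mm) ≤ 1 := by
          rw [div_le_one (by positivity)]
          exact one_le_pow₀ (by norm_num)
        obtain ⟨a1, a0⟩ := ac_near (n := n) (G := G) (zw := zw) hwW hW hH hK hN1 h11 hδ b2 b3 i.1
          (congrFun b1 i.1)
        split_ifs with h5
        · refine (Pool.V0F97.div_near a0).trans ?_
          rw [mul_one]
          linarith
        · exact (a1 i.2 (Nat.pos_of_ne_zero h5)).trans (by linarith))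
    have s4 : CH p (fun ω => ((adM F c 0 r n q w W X mm γ G H zw).v K ω).2)
        (fun ω => (codf F c r q w W X mm K γ H ω, (jet2 F c w H 0 r N ω,
          ((adM F c 0 r n q w W X mm γ G H zw).th ω,
            (adM F c 0 r n q w W X mm γ G H zw).z ω)))) ≤
        CH p (fun ω (i : Fin r × Fin (K + 1)) => if (i.2 : ℕ) = 0 then
          (adM F c 0 r n q w W X mm γ G H zw).ac K ω i.1 0 / 2 ^ (X + mm) else
          (adM F c 0 r n q w W X mm γ G H zw).ac K ω i.1 i.2)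
          (fun ω => (codf F c r q w W X mm K γ H ω, (jet2 F c w H 0 r N ω,
          ((adM F c 0 r n q w W X mm γ G H zw).th ω,
            (adM F c 0 r n q w W X mm γ G H zw).z ω)))) := by
      refine CH_mono_left h0 fun ω ν _ _ hh => ?_
      have h2 := (Prod.ext_iff.mp hh).1
      refine Prod.ext ?_ ?_
      · funext j a
        have h3 := congrFun h2 (j, a.succ)
        have h4 : ¬ (((a.succ : Fin (K + 1)) : ℕ) = 0) := by simp
        simp only [h4, if_false] at h3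
        exact h3
      · funext j
        have h3 := congrFun h2 (j, 0)
        simp only [Fin.val_zero, if_true] at h3
        exact h3
    have s5 : (Fintype.card (Fin r × Fin (K + 1)) : ℝ) *
        Real.log (2 * (2 ^ (K + 1) * 2 ^ (K + 1) + 3) + 1) = r * ((K + 1 : ℕ) * Pool.V0F97.cA K) := hcard
    rw [s5] at s3
    linarith


/-- **The codes of the contact coordinates** from the codes of order `≥ 2`. -/
theorem ac_vaF (C r K : ℕ) : ∃ Ca : ℝ, 0 ≤ Ca ∧ ∀ {m J : ℕ} {F : Fam m J} {c : ℕ → Fin m}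
    {q w W X mm D : ℕ} {γ : ℕ → ℕ} {H : LnT F → ℕ → MvPolynomial (Option (Fin m)) ℝ}
    {gg : F.Ω → Fin C → Fin r → ℝ} {tp : F.Ω → Fin C → Polynomial ℝ} {ζ σ : Type}
    {zw : F.Ω → ζ} {sd : F.Ω → σ} {Xt : Fin C → ℕ} {p : F.Ω → ℝ} {e : ℝ}, IsLaw p → w ≤ W →
    W ≤ J → (∀ s l, (H s l).totalDegree ≤ D) → D + 1 ≤ K → 0 ≤ e →
    (∀ l < r, CH p (Pool.AVG71.cod F W 2 K (2 ^ (γ l + q + (X + mm))) (c l) (fun s => upw w W s)
      (fun s => H s l)) (fun ω => (sd ω, (zw ω, F.W ω))) ≤ e) →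
    (∀ N : ℕ → ℕ → ℝ, (∀ l < r, ((γ l + q + (X + mm) : ℕ) : ℝ) ≤ N l 0 * J) →
      (∀ l < r, ((γ l + q + (X + mm) : ℕ) : ℝ) ≤ N l 1 * J + W) →
      CH p ((adP F c (mv0 r) Xt q w W X mm γ gg H tp (ctx F W zw sd)).ac K) (fun ω =>
        (jetm F c (mv0 r) w H (fun l => N l) ω, (rt F W ω, ctx F W zw sd ω))) ≤ r * e + Ca) ∧
    ∀ N : ℕ → ℕ → ℝ, (∀ l < r, ((γ l + q : ℕ) : ℝ) ≤ N l 0 * J) →
      (∀ l < r, ((γ l + q + (X + mm) : ℕ) : ℝ) ≤ N l 1 * J + W) →
      CH p (fun ω => ((adP F c (mv0 r) Xt q w W X mm γ gg H tp (ctx F W zw sd)).v K ω).2)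
        (fun ω => (jetm F c (mv0 r) w H (fun l => N l) ω, (rt F W ω, ctx F W zw sd ω))) ≤
          r * e + Ca := by
  obtain ⟨Ca, hCa, h⟩ := ac_stmtF r K
  refine ⟨Ca, hCa, ?_⟩
  intro m J F c q w W X mm D γ H gg tp ζ σ zw sd Xt p e hp hwW hW hH hK he hcod
  have h0 := hp.nonneg
  obtain ⟨b1, b2⟩ := h (n := 0) (G := fun _ _ _ => 0) (zw := ctx F W zw sd) hp hwW hW hH hK he
    (fun ω ν h1 h2 => by
      have h3 : ctx F W zw sd ω = ctx F W zw sd ν := (Prod.ext_iff.mp h2).1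
      obtain ⟨h4, h5⟩ := Prod.ext_iff.mp h3
      obtain ⟨h6, h7⟩ := Prod.ext_iff.mp h5
      exact Prod.ext h7 (Prod.ext h4 (adM_T hW h1 h6))) hcod
  have key : ∀ {N : ℕ → ℕ → ℝ}, Det p
      (fun ω => (jetm F c (mv0 r) w H (fun l => N l) ω, (rt F W ω, ctx F W zw sd ω)))
      (fun ω => (jet2 F c w H 0 r N ω,
        ((adM F c 0 r 0 q w W X mm γ (fun _ _ _ => 0) H (ctx F W zw sd)).th ω,
          (adM F c 0 r 0 q w W X mm γ (fun _ _ _ => 0) H (ctx F W zw sd)).z ω))) := by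
    intro N ω ν hω hν e
    simp only [Prod.mk.injEq] at e
    obtain ⟨e1, e2, e3⟩ := e
    have e4 : (slam F W ω).2 = (slam F W ν).2 := (Prod.ext_iff.mp (Prod.ext_iff.mp e3).2).1
    refine Prod.ext (jetm_jet2 (c := c) (r := r) (w := w) (H := H) N ω ν hω hν e1)
      (Prod.ext e2 (Prod.ext e3 (Prod.ext e4 ?_)))
    funext l
    exact l.elim0
  have hac : ∀ ω, (adP F c (mv0 r) Xt q w W X mm γ gg H tp (ctx F W zw sd)).ac K ω =
      (adM F c 0 r 0 q w W X mm γ (fun _ _ _ => 0) H (ctx F W zw sd)).ac K ω :=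
    fun ω => adP_acMC 0 _ ω
  constructor
  · intro N n0 n1
    refine le_trans ?_ (b1 N n0 n1)
    refine (CH_mono_left h0 fun ω ν _ _ e => ?_).trans (CH_mono_cond h0 key)
    have e1 := (Prod.ext_iff.mp e).1
    rw [hac, hac]
    exact e1
  · intro N n0 n1
    refine le_trans ?_ (b2 N n0 n1)
    refine (CH_mono_left h0 fun ω ν _ _ e => ?_).trans (CH_mono_cond h0 key)
    have e1 : (fun j (a : Fin K) => (adM F c 0 r 0 q w W X mm γ (fun _ _ _ => 0) H
          (ctx F W zw sd)).ac K ω j a.succ,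
        fun j => (adM F c 0 r 0 q w W X mm γ (fun _ _ _ => 0) H (ctx F W zw sd)).ac K ω j 0 /
          2 ^ (X + mm)) =
      (fun j (a : Fin K) => (adM F c 0 r 0 q w W X mm γ (fun _ _ _ => 0) H
          (ctx F W zw sd)).ac K ν j a.succ,
        fun j => (adM F c 0 r 0 q w W X mm γ (fun _ _ _ => 0) H (ctx F W zw sd)).ac K ν j 0 /
          2 ^ (X + mm)) := (Prod.ext_iff.mp e).1
    show (fun j (a : Fin K) => (adP F c (mv0 r) Xt q w W X mm γ gg H tp (ctx F W zw sd)).ac K ω j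
          a.succ,
        fun j => (adP F c (mv0 r) Xt q w W X mm γ gg H tp (ctx F W zw sd)).ac K ω j 0 /
          2 ^ (X + mm)) =
      (fun j (a : Fin K) => (adP F c (mv0 r) Xt q w W X mm γ gg H tp (ctx F W zw sd)).ac K ν j
          a.succ,
        fun j => (adP F c (mv0 r) Xt q w W X mm γ gg H tp (ctx F W zw sd)).ac K ν j 0 /
          2 ^ (X + mm))
    rw [hac, hac]
    exact e1


/-- **Closed gradient of the target `i0`**, given the digits of the other targets, on one event. -/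
theorem vs_finF (C r K : ℕ) (hK : 1 ≤ K) {h x₀ σ₀ ε : ℝ} (hh : 0 < h) (hh1 : h ≤ 1) (hx : 0 < x₀)
    (hxh : x₀ < h) (hσ : 0 < σ₀) (hε : 0 < ε) :
    ∃ ι π₀ C₁ : ℝ, 0 < ι ∧ 0 < π₀ ∧ 0 ≤ C₁ ∧ ∃ X₀ : ℕ,
      ∀ {m J : ℕ} {F : Fam m J} {c : ℕ → Fin m} {q w W X mm D : ℕ} {Xt : Fin C → ℕ} {i0 : Fin C}
        {γ : ℕ → ℕ} {B : F.Ω → Prop} {G₀ : PtT F → ℕ → MvPolynomial (Option (Fin m)) ℝ}
        {H : LnT F → ℕ → MvPolynomial (Option (Fin m)) ℝ} {gg : F.Ω → Fin r → ℝ}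
        {tp : F.Ω → Fin C → Polynomial ℝ} {ζ σ χ₁ χ₂ ρ₁ ρ₂ κ : Type} {zw : F.Ω → ζ}
        {sd : F.Ω → σ} {Cj : F.Ω → χ₁} {Cx : F.Ω → χ₂} {Rj : F.Ω → ρ₁} {Rx : F.Ω → ρ₂}
        {Qr : F.Ω → κ} {p : F.Ω → ℝ}
        {Nf Nn Nu Nv : ℕ → ℕ → ℝ} {nb : ℕ → ℝ} {U Ur e e₁ d ψ ε₀ : ℝ} {j₀ : ℕ},
        IsLaw p → (∀ ω, 0 < p ω → B ω) → w ≤ W → W + X ≤ J →
        (∀ s l, (H s l).totalDegree ≤ D) → D + 1 ≤ K →
        (∀ ω, B ω → ∀ l < r, G₀ (ptr F J ω) l = H (slam F w ω) l) → U + 1 ≤ 2 ^ mm →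
        Det p (slam F W) zw →
        SdED F c r q w W X K Xt i0 γ B G₀ H gg tp zw sd Cj Cx Rj Rx Qr p Nf Nn Nu nb π₀ U Ur e →
        Det p (fun ω => (rt F W ω, (adP F c (mv0 r) Xt q w W X mm γ (ggC i0 gg) H tp
          (ctx F W zw sd)).g K ω)) Qr →
        (∀ l < r, Nn l 0 * J ≤ (γ l + q : ℕ)) →
        (∀ l < r, Nn l 1 * J + W ≤ (γ l + q + (X + mm) : ℕ)) →
        (∀ l < r, Nu l 0 * J ≤ (γ l + q : ℕ)) →
        (∀ l < r, Nu l 1 * J + W ≤ (γ l + q + (X + mm) : ℕ)) →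
        (∀ l < r, CH p (Pool.AVG71.cod F W 2 K (2 ^ (γ l + q + (X + mm))) (c l)
          (fun s => upw w W s) (fun s => H s l)) (fun ω => (sd ω, (zw ω, F.W ω))) ≤ e₁) →
        (∀ l < r, ((γ l + q + (X + mm) : ℕ) : ℝ) ≤ Nf l 0 * J) →
        (∀ l < r, ((γ l + q + (X + mm) : ℕ) : ℝ) ≤ Nf l 1 * J + W) →
        (∀ l < r, ((γ l + q : ℕ) : ℝ) ≤ Nv l 0 * J) →
        (∀ l < r, ((γ l + q + (X + mm) : ℕ) : ℝ) ≤ Nv l 1 * J + W) →
        (∀ l, Nv l 1 = Nn l 1) → 0 ≤ d → (∀ l < r, (Nv l 0 - Nn l 0) * J ≤ d) →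
        (∀ l < r, ((γ l + q + X : ℕ) : ℝ) ≤ nb l * J) →
        (∀ l < r, nb l * J ≤ (γ l + q + (X + mm) : ℕ)) →
        TimW F p W j₀ ε₀ ψ → X₀ ≤ X → 0 ≤ e₁ →
        e + r * (d * Real.log 2 + Real.log 5) + r * e₁ + C₁ + ψ * J ≤ ι * X →
        (mm : ℝ) ≤ ι * X →
        Ur ≤ (1 - h) * X * Real.log 2 + ι * X →
        ∃ mu : LnT F → Fin r → Polynomial ℝ, (∀ s j, (mu s j).natDegree ≤ K) ∧
          (∀ s j (u : ℝ), |(mu s j).eval u| ≤ (K + 1) * (|u| + 1) ^ K * (2 : ℝ) ^ (σ₀ * X)) ∧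
          Pb p (fun ω => ∃ j, (2 : ℝ) ^ (-(x₀ * X)) <
            |gg ω j - (mu (slam F W ω) j).eval (rt F W ω)|) ≤ ε ∧
          ∀ Y : ℕ, (Y : ℝ) ≤ x₀ * X → ∀ j, CH p (fun ω => ⌊(2 : ℝ) ^ Y * gg ω j⌋)
            (fun ω => (rt F W ω, (adP F c (mv0 r) Xt q w W X mm γ (ggC i0 gg) H tp
              (ctx F W zw sd)).g K ω)) ≤ ε * X := by
  classical
  obtain ⟨ι₀, π₀, hι₀, hπ₀, X1, Hm⟩ := pp_clo C r K hK hh hh1 hx hxh hσ hε
  obtain ⟨B₁, hB₁, hB⟩ := cE0_le r K
  obtain ⟨Ca, hCa, hac⟩ := ac_vaF C r K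
  have hl2 : 0 < Real.log 2 := Real.log_pos one_lt_two
  have hl5 : 0 < Real.log 5 := Real.log_pos (by norm_num)
  have hr0 : (0 : ℝ) ≤ r := Nat.cast_nonneg r
  have hC0 : (0 : ℝ) ≤ C := Nat.cast_nonneg C
  have hlK : 0 ≤ Real.log (2 * ((K : ℝ) + 2) + 1) := Real.log_nonneg (by
    have : (0 : ℝ) ≤ K := Nat.cast_nonneg K
    linarith)
  have hClK : 0 ≤ C * Real.log (2 * ((K : ℝ) + 2) + 1) := mul_nonneg hC0 hlK
  obtain ⟨ι, hι⟩ : ∃ ι : ℝ, ι = ι₀ / (32 * (r + 2) * (C + 1)) := ⟨_, rfl⟩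
  have hιp : 0 < ι := by rw [hι]; positivity
  have hι1 : 32 * (r + 2) * (C + 1) * ι = ι₀ := by rw [hι]; field_simp
  have hι2 : 32 * (C + 1) * ι ≤ ι₀ := by
    have h1 : 32 * (C + 1) * ι * 1 ≤ 32 * (C + 1) * ι * (r + 2) :=
      mul_le_mul_of_nonneg_left (by linarith) (by positivity)
    linarith
  have hι3 : 32 * ι ≤ ι₀ := by
    have h1 : 32 * ι * 1 ≤ 32 * ι * (C + 1) := mul_le_mul_of_nonneg_left (by linarith)
      (by positivity)
    linarith
  obtain ⟨X2, hX2⟩ := exists_nat_ge (((C + 1) * B₁ + (C + 1 + r) * cV K) / (ι₀ / 4))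
  obtain ⟨X3, hX3⟩ := exists_nat_ge (C * Real.log (2 * ((K : ℝ) + 2) + 1) / (ι₀ / 2))
  refine ⟨ι, π₀, Ca + C * Real.log (2 * ((K : ℝ) + 2) + 1), hιp, hπ₀, by positivity,
    max X1 (max X2 (max K X3)), ?_⟩
  intro m J F c q w W X mm D Xt i0 γ B G₀ H gg tp ζ σ χ₁ χ₂ ρ₁ ρ₂ κ zw sd Cj Cx Rj Rx Qr p Nf Nn
    Nu Nv nb U Ur e e₁ d ψ ε₀ j₀ hp sup wW hWX deg DK cls mU zL S hQr n0 n1 u0 u1 hc2 f0 f1 v0 v1
    hv1 hd0 hv0 nb1 nb2 T hX he1 he hmm hUr
  have h0 := hp.nonneg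
  have hWJ : W ≤ J := by omega
  have hX0 : (0 : ℝ) ≤ X := Nat.cast_nonneg X
  have hXK : K ≤ X := (le_max_left _ _).trans ((le_max_right _ _).trans
    ((le_max_right _ _).trans hX))
  have hXX1 : X1 ≤ X := (le_max_left _ _).trans hX
  have hXX2 : (X2 : ℝ) ≤ X := by
    exact_mod_cast (le_max_left _ _).trans ((le_max_right _ _).trans hX)
  have hXX3 : C * Real.log (2 * ((K : ℝ) + 2) + 1) ≤ ι₀ / 2 * X := by
    have h1 : (X3 : ℝ) ≤ X := by
      exact_mod_cast (le_max_right _ _).trans ((le_max_right _ _).trans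
        ((le_max_right _ _).trans hX))
    have h2 := hX3.trans h1
    rwa [div_le_iff₀ (by linarith), mul_comm (X : ℝ)] at h2
  have he0 : 0 ≤ e := (CH_nonneg h0 _ _).trans S.chj
  have hψ : 0 ≤ ψ * J := by
    have h1 := T.mi (F.T1 W) (fun ω ν _ _ e => (Prod.ext_iff.mp (Prod.ext_iff.mp e).2).2)
      (fun _ _ _ _ e => e)
    refine le_trans ?_ h1
    rw [MI_eq h0]
    have := CH_mono_cond h0 (X := F.T) (W' := fun ω => (slam F W ω, F.T1 W ω)) (W := F.T1 W)
      (fun ω ν _ _ e => (Prod.ext_iff.mp e).2)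
    linarith
  have hre1 : 0 ≤ r * e₁ := by positivity
  have hrd : 0 ≤ r * (d * Real.log 2 + Real.log 5) := by positivity
  obtain ⟨e', he'⟩ : ∃ e' : ℝ, e' = e + r * (d * Real.log 2 + Real.log 5) + r * e₁ +
    (Ca + C * Real.log (2 * ((K : ℝ) + 2) + 1)) + ψ * J := ⟨_, rfl⟩
  rw [← he'] at he
  have hee : e ≤ e' := by rw [he']; linarith
  have hz : Det p (slam F W) (ctx F W zw sd) := fun ω ν a b hh => by
    unfold ctx
    rw [zL ω ν a b hh, S.sL ω ν a b hh, hh]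
  have hzT : Det p (ctx F W zw sd) (F.T1 W) := fun ω ν _ _ hh =>
    (Prod.ext_iff.mp (Prod.ext_iff.mp (Prod.ext_iff.mp hh).2).1).2
  have htp : Det p (slam F W) tp := S.tL
  have hth : ∀ ω, 0 ≤ rt F W ω ∧ rt F W ω < 1 := fun ω => by
    have h := tw_mem F hWJ ω
    rw [tw_rt F hWJ ω] at h
    exact h
  -- the time from the position in the window and the context
  have key1 : ∀ {ω ν : F.Ω}, rt F W ω = rt F W ν → ctx F W zw sd ω = ctx F W zw sd ν →
      zw ω = zw ν ∧ sd ω = sd ν ∧ F.W ω = F.W ν := by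
    intro ω ν h1 h2
    obtain ⟨h3, h4⟩ := Prod.ext_iff.mp h2
    obtain ⟨h5, h6⟩ := Prod.ext_iff.mp h4
    exact ⟨h3, h6, adM_T hWJ h1 h5⟩
  have key2 : ∀ {ω ν : F.Ω}, F.W ω = F.W ν → zw ω = zw ν → sd ω = sd ν →
      rt F W ω = rt F W ν ∧ ctx F W zw sd ω = ctx F W zw sd ν := by
    intro ω ν h1 h2 h3
    obtain ⟨h4, h5⟩ := Prod.ext_iff.mp h1
    have h4' : F.T ω = F.T ν := h4
    have h5' : F.Z ω = F.Z ν := h5
    refine ⟨?_, ?_⟩
    · rw [← tw_rt F hWJ, ← tw_rt F hWJ]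
      exact tw_of_T F h4'
    · unfold ctx
      have h6 : (slam F W ω).2 = (slam F W ν).2 := by
        show (F.Z ω, F.T1 W ω) = (F.Z ν, F.T1 W ν)
        unfold Fam.T1
        rw [h4', h5']
      rw [h2, h3, h6]
  obtain ⟨a1, a2⟩ := hac (F := F) (c := c) (q := q) (w := w) (W := W) (X := X) (mm := mm)
    (γ := γ) (H := H) (gg := ggC i0 gg) (tp := tp) (zw := zw) (sd := sd)
    (Xt := Xt) hp wW hWJ deg DK he1 hc2
  have P : PrP F c (mv0 r) Xt q w W X mm D K γ B G₀ H (ggC i0 gg)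
      tp (ctx F W zw sd) zw (fun ω => (sd ω, F.W ω)) Cj Cx Rj Rx
      (Vm F c (mv0 r) w H fun l => nb l * J) (Mn F W tp) (Mc F W Xt tp) p (fun l => Nf l) (fun l => Nn l)
      (fun l => Nn l) (fun l => Nu l) (fun l => Nv l) U (r * (X * Real.log 2)) e' :=
    { law := hp
      sup := sup
      wW := wW
      WJ := hWJ
      deg := deg
      dP := fun ω hω u => S.dP ω hω u
      DK := DK
      KX := by
        have h1 : (K : ℝ) ≤ 2 ^ K := by exact_mod_cast Nat.lt_two_pow_self.le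
        exact h1.trans (pow_le_pow_right₀ (by norm_num) (by omega))
      Xtm := S.xX
      cls := fun ω hω j => cls ω hω j j.2
      grd := S.grd
      mU := mU
      zT := hzT
      czy := by
        rw [CH_eq_zero h0 fun ω ν _ _ hh => by
          simp only [Prod.mk.injEq] at hh
          obtain ⟨b1, b2⟩ := key2 hh.2.2 hh.1 hh.2.1
          exact Prod.ext b1 b2]
        linarith
      cyz := by
        rw [CH_eq_zero h0 fun ω ν _ _ hh => by
          simp only [Prod.mk.injEq] at hh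
          obtain ⟨b1, b2, b3⟩ := key1 hh.1 hh.2
          exact Prod.ext b1 (Prod.ext b2 b3)]
        linarith
      ti := by
        have := adP_ti (c := c) (mv := mv0 r) (Xt := Xt) (q := q) (w := w)
          (X := X) (mm := mm) (γ := γ) (gg := ggC i0 gg) (H := H) hp T hz htp hzT K
        rw [he']
        linarith
      mj := by
        have h1 := mi_side h0 Rj
          (A := fun ω => ((jh F c r w H (fun l => Nf l 0) ω, jv F c r w H (fun l => Nf l 1) ω),
            Mc F W Xt tp ω))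
          (A' := fun ω => (jetm F c (mv0 r) w H (fun l => Nf l) ω,
            Mc F W Xt tp ω)) (s := fun _ => ())
          (W := fun ω => (((jh F c r w H (fun l => Nn l 0) ω, jv F c r w H (fun l => Nn l 1) ω),
            Mn F W tp ω), (zw ω, (sd ω, F.W ω))))
          (W' := fun ω => ((jetm F c (mv0 r) w H (fun l => Nn l) ω,
            Mn F W tp ω), (zw ω, (sd ω, F.W ω)))) (e := 0)
          (fun ω ν hω hν hh => by
            obtain ⟨b1, b2⟩ := Prod.ext_iff.mp (Prod.ext_iff.mp hh).1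
            exact Prod.ext (jhv_jetm Nf ω ν hω hν b1) b2)
          (fun ω ν hω hν hh => by
            obtain ⟨b1, b2⟩ := Prod.ext_iff.mp hh
            obtain ⟨b3, b4⟩ := Prod.ext_iff.mp b1
            exact Prod.ext (Prod.ext (jetm_jhv Nn ω ν hω hν b3) b4) b2)
          (fun ω ν hω hν hh => by
            obtain ⟨b1, b2⟩ := Prod.ext_iff.mp (Prod.ext_iff.mp hh).1
            exact Prod.ext (jetm_jhv Nf ω ν hω hν b1) b2)
          (fun ω ν hω hν hh => by
            obtain ⟨b1, b2⟩ := Prod.ext_iff.mp (Prod.ext_iff.mp hh).2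
            obtain ⟨b3, b4⟩ := Prod.ext_iff.mp b1
            exact Prod.ext (Prod.ext (jhv_jetm Nn ω ν hω hν b3) b4) b2)
          (le_of_eq (CH_eq_zero h0 fun _ _ _ _ _ => rfl))
        have h2 := S.out.mj
        linarith
      mx := by
        have h1 := mi_side h0 Rx
          (A := fun ω => (jh F c r w H (fun l => Nf l 0) ω, jv F c r w H (fun l => Nf l 1) ω))
          (A' := jetm F c (mv0 r) w H (fun l => Nf l)) (s := fun _ => ())
          (W := fun ω => ((jh F c r w H (fun l => Nn l 0) ω, jv F c r w H (fun l => Nn l 1) ω),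
            (zw ω, (sd ω, F.W ω))))
          (W' := fun ω => (jetm F c (mv0 r) w H (fun l => Nn l) ω, (zw ω, (sd ω, F.W ω))))
          (e := 0)
          (fun ω ν hω hν hh => jhv_jetm Nf ω ν hω hν (Prod.ext_iff.mp hh).1)
          (fun ω ν hω hν hh => by
            obtain ⟨b1, b2⟩ := Prod.ext_iff.mp hh
            exact Prod.ext (jetm_jhv Nn ω ν hω hν b1) b2)
          (fun ω ν hω hν hh => jetm_jhv Nf ω ν hω hν (Prod.ext_iff.mp hh).1)
          (fun ω ν hω hν hh => by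
            obtain ⟨b1, b2⟩ := Prod.ext_iff.mp (Prod.ext_iff.mp hh).2
            exact Prod.ext (jhv_jetm Nn ω ν hω hν b1) b2)
          (le_of_eq (CH_eq_zero h0 fun _ _ _ _ _ => rfl))
        have h2 := S.out.mx
        linarith
      chj := S.chj.trans hee
      chx := S.chx.trans hee
      zx := S.zx.trans hee
      n0 := fun j => n0 j j.2
      n1 := fun j => n1 j j.2
      x0 := fun j => n0 j j.2
      x1 := fun j => n1 j j.2
      u0 := fun j => u0 j j.2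
      u1 := fun j => u1 j j.2
      tn := by
        have h1 := tn_fewC (K := K) hp (adP F c (mv0 r) Xt q w W X mm γ
          (ggC i0 gg) H tp (ctx F W zw sd)) S.dP (fun ω _ => hth ω)
        refine le_trans h1 ?_
        rw [he']
        linarith
      tf := by
        rw [CH_eq_zero h0 fun ω ν _ _ hh => by
          exact (Prod.ext_iff.mp (Prod.ext_iff.mp hh).1).2]
        linarith
      ac := by
        have := a1 Nf f0 f1
        rw [he']
        linarith
      va := by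
        have := a2 Nv v0 v1
        rw [he']
        linarith
      dj := by
        refine le_trans ?_ (S.dj.trans hee)
        refine (CH_mono_left h0 fun ω ν _ _ hh => ?_).trans (CH_mono_cond h0
          fun ω ν hω hν hh => ?_)
        · exact (Prod.ext_iff.mp hh).1
        · obtain ⟨b1, b2⟩ := Prod.ext_iff.mp hh
          obtain ⟨b3, b4⟩ := Prod.ext_iff.mp b2
          obtain ⟨b5, b6, b7⟩ := key1 b3 b4
          exact Prod.ext (jetm_jhv Nf ω ν hω hν b1) (Prod.ext b6 (Prod.ext b5 b7))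
      jt := by
        refine le_trans ?_ (S.jt.trans hee)
        refine (CH_mono_left h0 fun ω ν _ _ hh => ?_).trans (CH_mono_cond h0
          fun ω ν hω hν hh => ?_)
        · exact (Prod.ext_iff.mp hh).1
        · obtain ⟨b1, b2⟩ := Prod.ext_iff.mp hh
          obtain ⟨b8, b9⟩ := Prod.ext_iff.mp b2
          obtain ⟨b3, b4⟩ := Prod.ext_iff.mp b9
          obtain ⟨b5, b6, b7⟩ := key1 b3 b4
          exact Prod.ext (jetm_jhv Nu ω ν hω hν b1) (Prod.ext b6 (Prod.ext b8 b7))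
      vf := by
        have h1 := S.vf
        have h2 := CH_ge h0 (Vv F c r w H fun l => nb l * J) (jh F c r w H fun l => Nv l 0)
          (fun ω => ((jh F c r w H (fun l => Nn l 0) ω, jv F c r w H (fun l => Nn l 1) ω),
            (Rx ω, (sd ω, F.W ω))))
        have h3 := CH_jh hp hv0 hd0 (fun ω => ((jh F c r w H (fun l => Nn l 0) ω,
          jv F c r w H (fun l => Nn l 1) ω), (Rx ω, (sd ω, F.W ω)))) (fun ω ν _ _ e =>
            (Prod.ext_iff.mp (Prod.ext_iff.mp e).1).1)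
        have h4 : CH p (Vv F c r w H fun l => nb l * J) (fun ω => (jh F c r w H (fun l => Nv l 0) ω,
            ((jh F c r w H (fun l => Nn l 0) ω, jv F c r w H (fun l => Nn l 1) ω),
              (Rx ω, (sd ω, F.W ω))))) ≤
            CH p (Vm F c (mv0 r) w H fun l => nb l * J)
              (fun ω => (jetm F c (mv0 r) w H (fun l => Nv l) ω, (Rx ω, (sd ω, F.W ω)))) := by
          refine CH_mono_cond h0 fun ω ν hω hν hh => ?_
          simp only [Prod.mk.injEq] at hh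
          have e1 : (fun l : ℕ => Nv l 1) = fun l => Nn l 1 := funext hv1
          refine Prod.ext (jhv_jetm Nv ω ν hω hν (Prod.ext hh.1 ?_)) (Prod.ext hh.2.2.1
            (Prod.ext hh.2.2.2.1 hh.2.2.2.2))
          simp only [e1]
          exact hh.2.1.2
        rw [he']
        linarith }
  have hcE := (hB U mm S.grd.U0 (by linarith)).1
  have he'0 : 0 ≤ e' := he0.trans hee
  have hEv : Evp C r K U e' ≤ ι₀ * X := by
    have h1 : (C + 1) * B₁ + (C + 1 + r) * cV K ≤ ι₀ / 4 * X := by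
      have h2 := hX2.trans hXX2
      rw [div_le_iff₀ (by linarith)] at h2
      linarith
    have hCC : (0 : ℝ) ≤ C + 1 := by linarith
    have h3 : (C + 1) * (4 * e') ≤ ι₀ / 8 * X := by
      have h4 : 32 * (C + 1) * ι * X ≤ ι₀ * X := mul_le_mul_of_nonneg_right hι2 hX0
      have h5 : (C + 1) * (4 * e') ≤ (C + 1) * (4 * (ι * X)) :=
        mul_le_mul_of_nonneg_left (by linarith) hCC
      have h6 : (C + 1) * (4 * (ι * X)) = 32 * (C + 1) * ι * X / 8 := by ring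
      linarith
    have h5 : (C + 1) * ((r + 1) * (mm : ℝ)) ≤ ι₀ / 32 * X := by
      have h6 : (C + 1) * (((r : ℝ) + 2) * mm) ≤ (C + 1) * ((r + 2) * (ι * X)) :=
        mul_le_mul_of_nonneg_left (mul_le_mul_of_nonneg_left hmm (by positivity)) hCC
      have h7 : (C + 1) * (((r : ℝ) + 2) * (ι * X)) = ι₀ / 32 * X := by
        rw [← hι1]
        ring
      have h8 : (C + 1) * (((r : ℝ) + 1) * mm) ≤ (C + 1) * ((r + 2) * mm) :=
        mul_le_mul_of_nonneg_left (mul_le_mul_of_nonneg_right (by linarith)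
          (Nat.cast_nonneg mm)) hCC
      linarith
    have h9 : 0 ≤ ι₀ * X := by positivity
    have h10 : (C + 1) * (4 * e' + (cE0 r K U + cV K)) ≤
        (C + 1) * (4 * e' + (B₁ + (r + 1) * mm + cV K)) :=
      mul_le_mul_of_nonneg_left (by linarith) hCC
    unfold Evp
    have h11 : (C + 1) * (4 * e' + (B₁ + (r + 1) * mm + cV K)) + r * cV K =
        (C + 1) * (4 * e') + (C + 1) * ((r + 1) * (mm : ℝ)) +
          ((C + 1) * B₁ + (C + 1 + r) * cV K) := by ring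
    linarith
  have hιι : ι ≤ ι₀ := by linarith
  have hιX : ι * X ≤ ι₀ * X := mul_le_mul_of_nonneg_right hιι hX0
  have hgi : ∀ ω j, ggC i0 gg ω i0 j = gg ω j := fun ω j => if_pos rfl
  obtain ⟨mu, m1, m2, m3, m4⟩ := Hm P i0 (Qr := fun ω => (((sd ω, (zw ω, F.W ω)), Qr ω),
      (rt F W ω, (adP F c (mv0 r) Xt q w W X mm γ (ggC i0 gg) H tp (ctx F W zw sd)).g K ω)))
    (Ur := Ur + C * Real.log (2 * ((K : ℝ) + 2) + 1)) (ψ := ψ) (ε₀ := ε₀) (j₀ := j₀)
    (fun j => nb1 j j.2) (fun j => nb2 j j.2)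
    (fun ω _ u hu j => if_neg hu)
    (fun ω ν a b hh => by
      obtain ⟨b1, b2⟩ := Prod.ext_iff.mp hh
      obtain ⟨b3, b4⟩ := Prod.ext_iff.mp b2
      obtain ⟨b5, b6, b7⟩ := key1 b1 b3
      exact Prod.ext (Prod.ext (Prod.ext b6 (Prod.ext b5 b7)) (hQr ω ν a b hh)) hh)
    (fun E hE => by
      have hE0 : ∀ ω, 0 ≤ rs p E ω := fun ω => cond_nonneg h0 _ _ ω
      have hEP : 0 < Pr p E := lt_of_lt_of_le hπ₀ hE
      have hEl : IsLaw (rs p E) := ⟨hE0, sum_cond p (fun ω => ω ∈ E) hEP.ne'⟩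
      have hEp : ∀ ω, 0 < rs p E ω → 0 < p ω := fun ω hω =>
        ((cond_pos_iff h0 _ True ω).1 hω).1
      obtain ⟨Wc, hWc⟩ : ∃ Wc : F.Ω → _, Wc = fun ω => ((Mt F W Xt tp ω i0 / 2 ^ X,
          oth i0 (Mt F W Xt tp ω)), (Vm F c (mv0 r) w H (fun l => nb l * J) ω,
          (((sd ω, (zw ω, F.W ω)), Qr ω), (rt F W ω, (adP F c (mv0 r) Xt q w W X mm γ
            (ggC i0 gg) H tp (ctx F W zw sd)).g K ω)))) := ⟨_, rfl⟩
      have s1 := CH_le_add hE0 (fun ω => Mt F W Xt tp ω i0) (Mn F W tp) Wc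
      have s2 : CH (rs p E) (Mn F W tp) Wc ≤ C * Real.log (2 * ((K : ℝ) + 2) + 1) := by
        have g1 := tn_fewC (K := K) hEl (adP F c (mv0 r) Xt q w W X mm γ
          (ggC i0 gg) H tp (ctx F W zw sd)) (fun ω hω => S.dP ω (hEp ω hω)) (fun ω _ => hth ω)
        refine le_trans (CH_mono_cond hE0 (W' := Wc) fun ω ν _ _ hh => ?_) g1
        rw [hWc] at hh
        exact (Prod.ext_iff.mp (Prod.ext_iff.mp (Prod.ext_iff.mp hh).2).2).2
      have s3 : CH (rs p E) (fun ω => Mt F W Xt tp ω i0) (fun ω => (Mn F W tp ω, Wc ω)) ≤ Ur := by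
        refine le_trans ((CH_mono_cond hE0 (W := fun ω => ((Mn F W tp ω i0,
          oth i0 (Mc F W Xt tp ω)), (Vv F c r w H (fun l => nb l * J) ω,
            ((sd ω, (zw ω, F.W ω)), Qr ω)))) fun ω ν _ _ hh => ?_)) (S.row E hE)
        rw [hWc] at hh
        obtain ⟨b0, b0'⟩ := Prod.ext_iff.mp hh
        obtain ⟨b1, b2⟩ := Prod.ext_iff.mp b0'
        obtain ⟨b3, b4⟩ := Prod.ext_iff.mp b1
        obtain ⟨b5, b6⟩ := Prod.ext_iff.mp b2
        obtain ⟨b7, b8⟩ := Prod.ext_iff.mp b6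
        exact Prod.ext (Prod.ext (congrFun b0 i0) b4) (Prod.ext b5 b7)
      rw [← hWc]
      linarith)
    T hz htp hXX1 (by omega) (by
      have : ψ * J ≤ e' := by rw [he']; linarith
      linarith) (hmm.trans hιX) hEv (by
      have h1 : ι ≤ ι₀ / 2 := by linarith
      have h2 : ι * X ≤ ι₀ / 2 * X := mul_le_mul_of_nonneg_right h1 hX0
      linarith)
  refine ⟨mu, m1, m2, ?_, ?_⟩
  · simpa only [hgi] using m3
  · simpa only [hgi] using m4

end Pool.KE30
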