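import Pool.Agent.H87.V0S.Sg
import Pool.Agent.H56.V0S.EvD

/-!
# The gradient of the last place over a follower

`grdK`: the inputs `GrdP` of the event theorem for the moved place `c k` (a follower) and the target
`c (k + 1)`, the heights of the slope-one places being known from the context.
-/

set_option autoImplicit false

namespace Pool.KE30

open Finset Real MvPolynomial
open Pool.Agent.H49.Ent Pool.Agent.H32.Dense
open Pool.STK hiding pr2
open Pool.KA Pool.KSAT Pool.K2S Pool.PB Pool.S6C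
open Pool.GEN Pool.CHT Pool.CHX Pool.ISO Pool.LA91 Pool.AVG71 Pool.AVG5 Pool.D2F2 Pool.AVG57
open Pool.AVG66 Pool.VP83 Pool.V0S
open Pool.D2R (hgt gnh WinB)
open Pool.PB.Trl (rt rt_mem t_rt)
open Pool.VS64 (GrdP)

/-- **The gradient of the last place over a follower.** -/
theorem grdK (D r : ℕ) : ∃ C : ℕ, 1 ≤ C ∧ ∀ {m J : ℕ} {F : Fam m J} {c : ℕ → Fin m}
    {Dr N M : ℕ} {C₀ a Eb ηm : ℝ} {o η σ : ℕ → ℝ} {lv b : ℕ → ℕ → ℝ}
    {κ : ℝ} {z : ℕ → ℕ → ℕ} {B : F.Ω → Prop} {g₀ : ℕ → ℕ → ℕ}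
    {G : ℕ → PtT F → ℕ → MvPolynomial (Option (Fin m)) ℝ}
    {H : ℕ → LnT F → ℕ → MvPolynomial (Option (Fin m)) ℝ}
    (_ : WinB F c r D Dr N M C₀ a Eb ηm o η σ lv b κ z B g₀ G H)
    {G' : PtT F → ℕ → MvPolynomial (Option (Fin m)) ℝ} {κ' : F.Ω → ℕ → ℝ}
    {f jj : ℕ → ℕ} {n ks k q X Y : ℕ} {s σ' : ℝ},
    Frm F c k (k + 1) D Y B (G (f 0)) (g₀ (f 0)) ⌊o (f 0) * J⌋₊ G' κ' →
    Set.InjOn c (Set.Iio (r + 1)) → k + 1 ≤ r → WDs o lv z J N M f jj n k (k + 1) Y s σ' →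
    C₀ * (ηm * J) ≤ Y → 3 ≤ Y → C * Y ≤ q → ks ≤ n →
    s * ((o (f n) - o (f 0)) * J) ≤ q + Y → (q : ℝ) ≤ s * ((o (f n) - o (f 0)) * J) + Y →
    (q : ℝ) + X ≤ σ' * ((o (f n) - o (f 0)) * J) + Y → X ≤ q + Y →
    (X : ℝ) ≤ s * ((o (f ks) - o (f 0)) * J) + Y →
    (X : ℝ) ≤ (σ' - s) * ((o (f ks) - o (f 0)) * J) + Y →
    ∀ {W : ℕ} {A : F.Ω → Prop} {ζ : Type} {zz : F.Ω → ζ} {tp : F.Ω → Fin 1 → Polynomial ℝ},
      Sub A B →
      (∀ ω ν, A ω → A ν → F.t ω = F.t ν → zz ω = zz ν → ∀ j < k,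
        |hgt F c G' ω j - hgt F c G' ν j| ≤ 2 ^ 2 / 2 ^ (g₀ (f 0) j + q + X)) →
      (∀ ω, A ω → ∀ v, (tp ω v).eval (rt F W ω) =
        2 ^ (g₀ (f 0) (k + 1) + q) * hgt F c G' ω (k + 1)) →
      GrdP F (fun l => c (k + l)) (mv0 1) (fun _ : Fin 1 => X) q W X (fun l => g₀ (f 0) (k + l))
        (2 ^ (C * Y)) A (fun y l => G' y (k + l))
        (ggC 0 (fun ω (_ : Fin 1) => gnh F c (k + 1) (g₀ (f 0)) G' (G (f n)) ω k)) tp zz
        (Cch F (k + 1) G' (G (f ks))) (Cch F (k + 1) G' (G (f n))) := by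
  obtain ⟨C, hC, hga⟩ := gnh_all D r
  obtain ⟨C', hC', hgn⟩ := gfq_nx D r
  obtain ⟨A₀, hA₀⟩ : ∃ A₀ : ℕ, A₀ = 2 * C + C' + r + 6 := ⟨_, rfl⟩
  refine ⟨A₀, by omega, ?_⟩
  intro m J F c Dr N M C₀ a Eb ηm o η σ lv b κ z B g₀ G H W G' κ' f jj n ks k q X Y s σ' T
    hc hi V hY hY3 hCq hks hq1 hq1' hqX hXq hX1 hX2 W₁ A ζ zz tp hAB hV0 htp
  have hY3R : (3 : ℝ) ≤ Y := by exact_mod_cast hY3
  have hXqR : (X : ℝ) ≤ q + Y := by exact_mod_cast hXq
  have hs0 := V.s0
  have hsσ := V.sσ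
  have hq2 : 2 ≤ q := by nlinarith
  have hCYq : C' * Y ≤ q := le_trans (Nat.mul_le_mul_right Y (by omega)) hCq
  have h2Y : C₀ * (ηm * J) ≤ (2 * Y : ℕ) := by push_cast; linarith
  have c1 := hga W (G' := G') (κ' := κ') (f := f) (jj := jj) (n := n) (ks := ks) (k := k)
    (i := k + 1) (q := q) (X := X) (Y := Y) (s := s) (σ' := σ') T hc hi (by omega) V hY hY3 hks hq2
    hq1 hX1 hX2
  have c2 := hga W (G' := G') (κ' := κ') (f := f) (jj := jj) (n := n) (ks := n) (k := k)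
    (i := k + 1) (q := q) (X := X) (Y := 2 * Y) (s := s) (σ' := σ') (T.mono (by omega)) hc hi
    (by omega) (V.mono (by omega)) h2Y (by omega) le_rfl hq2 (by push_cast; linarith)
    (by push_cast; linarith) (by push_cast; linarith)
  have c3 := hgn W (G' := G') (κ' := κ') (f := f) (jj := jj) (n := n) (k := k) (i := k + 1)
    (q := q) (X := X) (Y := Y) (Y₃ := 0) (s := s) (σ' := σ') T hc hi (by omega) V hY hY3 hCYq hq1
    hq1' hqX hXq
  have m1 : (2 : ℝ) ^ (C * Y) ≤ 2 ^ (A₀ * Y) :=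
    pow_le_pow_right₀ (by norm_num) (Nat.mul_le_mul_right Y (by omega))
  have m2 : (2 : ℝ) ^ (C * (2 * Y)) ≤ 2 ^ (A₀ * Y) :=
    pow_le_pow_right₀ (by norm_num) (by
      rw [show C * (2 * Y) = 2 * C * Y by ring]
      exact Nat.mul_le_mul_right Y (by omega))
  have hg1 : ∀ ω (u : Fin 1) (j : Fin 1), ggC 0 (fun ω (_ : Fin 1) =>
      gnh F c (k + 1) (g₀ (f 0)) G' (G (f n)) ω k) ω u j =
      gnh F c (k + 1) (g₀ (f 0)) G' (G (f n)) ω k := fun ω u j => by
    unfold ggC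
    rw [if_pos (Subsingleton.elim u 0)]
  have hV : ∀ ω ν, A ω → A ν → F.t ω = F.t ν → zz ω = zz ν → ∀ j < k,
      |hgt F c G' ω j - hgt F c G' ν j| ≤ 2 ^ 2 / 2 ^ (g₀ (f 0) j + q) :=
    fun ω ν h1 h2 h3 h4 j hj => (hV0 ω ν h1 h2 h3 h4 j hj).trans
      (div_le_div_of_nonneg_left (by norm_num) (by positivity)
        (pow_le_pow_right₀ (by norm_num) (by omega)))
  exact
    { U0 := by positivity
      bm := fun ω hω u j => by
        rw [hg1]
        exact (c1.1 ω (hAB ω hω) k (by omega)).trans m1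
      bj := fun ω ν hω hν ht hz hj _ u j => by
        rw [hg1, hg1]
        obtain ⟨e1, e2⟩ := cch_of hj
        exact (c1.2 ω ν (hAB ω hω) (hAB ν hν) ht e1 e2 (hV ω ν hω hν ht hz) k (by omega)).trans
          (div_le_div_of_nonneg_right m1 (by positivity))
      bx := fun ω ν hω hν ht hz hj _ u j => by
        rw [hg1, hg1]
        obtain ⟨e1, e2⟩ := cch_of hj
        exact (c2.2 ω ν (hAB ω hω) (hAB ν hν) ht e1 e2 (hV ω ν hω hν ht hz) k (by omega)).trans
          (div_le_div_of_nonneg_right m2 (by positivity))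
      nx := fun ω ν hω hν ht hz hj _ u => by
        obtain ⟨e1, e2⟩ := cch_of hj
        obtain ⟨-, g2⟩ := c3 ω ν (hAB ω hω) (hAB ν hν) ht e1 e2 (hV ω ν hω hν ht hz)
        have g3 := g2 (fun l => gnh F c (k + 1) (g₀ (f 0)) G' (G (f n)) ω l)
          (fun l _ _ => by rw [sub_self, abs_zero]; positivity)
        rw [Nat.Ico_succ_singleton, Finset.sum_singleton, add_zero] at g3
        rw [htp ω hω u, htp ν hν u, Fin.sum_univ_one, hg1]
        have hgb : ∀ j < k, |2 ^ X * (gnh F c (k + 1) (g₀ (f 0)) G' (G (f n)) ω j *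
            (2 ^ (g₀ (f 0) j + q) * (hgt F c G' ω j - hgt F c G' ν j)))| ≤ 2 ^ (C * Y) * 4 := by
          intro j hj'
          have a1 := c1.1 ω (hAB ω hω) j (by omega)
          have a2 := hV0 ω ν hω hν ht hz j hj'
          have a3 : 2 ^ X * (gnh F c (k + 1) (g₀ (f 0)) G' (G (f n)) ω j *
              (2 ^ (g₀ (f 0) j + q) * (hgt F c G' ω j - hgt F c G' ν j))) =
              gnh F c (k + 1) (g₀ (f 0)) G' (G (f n)) ω j *
                (2 ^ (g₀ (f 0) j + q + X) * (hgt F c G' ω j - hgt F c G' ν j)) := by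
            rw [pow_add _ (g₀ (f 0) j + q) X]
            ring
          rw [a3, abs_mul, abs_mul, abs_of_pos (show (0 : ℝ) < 2 ^ (g₀ (f 0) j + q + X) by
            positivity)]
          refine mul_le_mul a1 ?_ (by positivity) (by positivity)
          refine (mul_le_mul_of_nonneg_left a2 (by positivity)).trans (le_of_eq ?_)
          field_simp
          norm_num
        have hsum : |2 ^ X * ∑ j ∈ Finset.range k, gnh F c (k + 1) (g₀ (f 0)) G' (G (f n)) ω j *
            (2 ^ (g₀ (f 0) j + q) * (hgt F c G' ω j - hgt F c G' ν j))| ≤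
            2 ^ (C * Y + r + 2) := by
          rw [Finset.mul_sum]
          refine (Finset.abs_sum_le_sum_abs _ _).trans ((Finset.sum_le_sum fun j hj' =>
            hgb j (Finset.mem_range.1 hj')).trans ?_)
          rw [Finset.sum_const, Finset.card_range, nsmul_eq_mul]
          have b1 : (k : ℝ) ≤ 2 ^ r := by
            have b2 : k < 2 ^ r := lt_of_lt_of_le (by omega : k < r + 1)
              (by have := Nat.lt_two_pow_self (n := r); omega)
            exact_mod_cast b2.le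
          calc (k : ℝ) * (2 ^ (C * Y) * 4) ≤ 2 ^ r * (2 ^ (C * Y) * 4) :=
                mul_le_mul_of_nonneg_right b1 (by positivity)
            _ = 2 ^ (C * Y + r + 2) := by
                rw [pow_add, pow_add]
                ring
        have e5 : 2 ^ X * (2 ^ (g₀ (f 0) (k + 1) + q) * hgt F c G' ω (k + 1) -
            2 ^ (g₀ (f 0) (k + 1) + q) * hgt F c G' ν (k + 1)) -
            2 ^ X * (gnh F c (k + 1) (g₀ (f 0)) G' (G (f n)) ω k *
              (2 ^ (g₀ (f 0) (k + (mv0 1 0)) + q) * (hgt F (fun l => c (k + l))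
                (fun y l => G' y (k + l)) ω (mv0 1 0) - hgt F (fun l => c (k + l))
                (fun y l => G' y (k + l)) ν (mv0 1 0)))) =
            (2 ^ X * (2 ^ (g₀ (f 0) (k + 1) + q) * ((hgt F c G' ω (k + 1) -
              hgt F c G' ν (k + 1)) - 2 ^ g₀ (f 0) k / 2 ^ g₀ (f 0) (k + 1) *
                gnh F c (k + 1) (g₀ (f 0)) G' (G (f n)) ω k *
                  (hgt F c G' ω k - hgt F c G' ν k))) -
            2 ^ X * ∑ j ∈ Finset.range k, gnh F c (k + 1) (g₀ (f 0)) G' (G (f n)) ω j *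
              (2 ^ (g₀ (f 0) j + q) * (hgt F c G' ω j - hgt F c G' ν j))) +
            2 ^ X * ∑ j ∈ Finset.range k, gnh F c (k + 1) (g₀ (f 0)) G' (G (f n)) ω j *
              (2 ^ (g₀ (f 0) j + q) * (hgt F c G' ω j - hgt F c G' ν j)) := by
          have b1 : hgt F (fun l => c (k + l)) (fun y l => G' y (k + l)) ω (mv0 1 0) =
            hgt F c G' ω k := rfl
          have b2 : hgt F (fun l => c (k + l)) (fun y l => G' y (k + l)) ν (mv0 1 0) =
            hgt F c G' ν k := rfl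
          have b3 : g₀ (f 0) (k + (mv0 1 0)) = g₀ (f 0) k := rfl
          rw [b1, b2, b3, pow_add _ (g₀ (f 0) (k + 1)) q, pow_add _ (g₀ (f 0) k) q]
          field_simp
          ring
        rw [e5]
        refine (abs_add_le _ _).trans ((add_le_add g3 hsum).trans ?_)
        have b1 : (2 : ℝ) ^ (C' * Y) ≤ 2 ^ (A₀ * Y - 1) := pow_le_pow_right₀ (by norm_num) (by
          have : C' * Y + 1 ≤ A₀ * Y := by rw [hA₀]; nlinarith
          omega)
        have b2 : (2 : ℝ) ^ (C * Y + r + 2) ≤ 2 ^ (A₀ * Y - 1) :=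
          pow_le_pow_right₀ (by norm_num) (by
            have : C * Y + r + 2 + 1 ≤ A₀ * Y := by rw [hA₀]; nlinarith
            omega)
        have b3 : (2 : ℝ) ^ (A₀ * Y) = 2 * 2 ^ (A₀ * Y - 1) := by
          obtain ⟨v, hv⟩ : ∃ v : ℕ, A₀ * Y = v + 1 := ⟨A₀ * Y - 1, by
            have : 1 ≤ A₀ * Y := Nat.one_le_iff_ne_zero.2 (by
              have : 1 ≤ A₀ := by omega
              positivity)
            omega⟩
          rw [hv, Nat.add_sub_cancel, pow_succ]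
          ring
        rw [b3]
        linarith }

end Pool.KE30
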