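import Pool.Agent.H97.V0F.Ac
import Pool.Agent.H83.VG.Evt
import Pool.Agent.H87.V0S.Sp
import Pool.Agent.H87.V0S.Nd

/-!
# The codes of the paths of the slope-one places as a side path

`sdV`: the codes of the paths of `c 0, …, c (k - 1)` in the window `w`, to `Nl l` digits; a function of
the line. `sdV_jets`: the heights and velocities from the codes; `sdV_few`: the codes from the heights,
the velocities and the codes of order `≥ 2`; `sdV_hgt`: near heights for equal codes.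
-/

set_option autoImplicit false

namespace Pool.KE30

open Finset Real MvPolynomial
open Pool.Agent.H49.Ent Pool.Agent.H32.Dense
open Pool.STK hiding pr2
open Pool.KA Pool.KSAT Pool.K2S Pool.PB Pool.S6C
open Pool.GEN Pool.CHT Pool.CHX Pool.ISO Pool.LA91 Pool.AVG71 Pool.AVG5 Pool.D2F2
open Pool.AVG57 hiding cod
open Pool.V0F Pool.V0F97 Pool.V0S
open Pool.D2R (hgt)
open Pool.PB.Trl (rt rt_mem t_rt)

variable {m J : ℕ}

/-- **The codes of the paths** of the slope-one places. -/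
noncomputable def sdV (F : Fam m J) (c : ℕ → Fin m) (k w K : ℕ) (Nl : ℕ → ℕ)
    (H : LnT F → ℕ → MvPolynomial (Option (Fin m)) ℝ) (ω : F.Ω) (l : Fin k) (a : Fin (K + 1)) : ℤ :=
  ⌊(2 : ℝ) ^ Nl l * (dv w (fun s (_ : Fin m) => H (upw w w s) l) (c l) (slam F w ω)).coeff a⌋

/-- The codes of order `≥ 2`. -/
noncomputable def sdT (F : Fam m J) (c : ℕ → Fin m) (k w K : ℕ) (Nl : ℕ → ℕ)
    (H : LnT F → ℕ → MvPolynomial (Option (Fin m)) ℝ) (ω : F.Ω) (l : Fin k) (a : Fin (K + 1)) : ℤ :=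
  Pool.AVG71.cod F w 2 K (2 ^ Nl l) (c l) (fun s => upw w w s) (fun s => H s l) ω a

section

variable {F : Fam m J} {c : ℕ → Fin m} {k w K D : ℕ} {Nl : ℕ → ℕ}
  {H : LnT F → ℕ → MvPolynomial (Option (Fin m)) ℝ} {p : F.Ω → ℝ}

theorem sdV_slam (p : F.Ω → ℝ) : Det p (slam F w) (sdV F c k w K Nl H) := by
  intro ω ν _ _ e
  unfold sdV
  rw [e]

/-- The path of a place, in the units `2 ^ (- Nl l)`. -/
noncomputable def pvV (F : Fam m J) (c : ℕ → Fin m) (w : ℕ) (Nl : ℕ → ℕ)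
    (H : LnT F → ℕ → MvPolynomial (Option (Fin m)) ℝ) (ω : F.Ω) (l : ℕ) : Polynomial ℝ :=
  Polynomial.C (2 ^ Nl l) * dv w (fun s (_ : Fin m) => H (upw w w s) l) (c l) (slam F w ω)

theorem pvV_deg (hH : ∀ s l, (H s l).totalDegree ≤ D) (hK : D + 1 ≤ K) (ω : F.Ω) (l : ℕ) :
    (pvV F c w Nl H ω l).natDegree ≤ K :=
  (Polynomial.natDegree_C_mul_le _ _).trans ((natDegree_dv w
    (G := fun s (_ : Fin m) => H (upw w w s) l) (fun s _ => hH _ _) _ _).trans hK)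

theorem pvV_jt (hW : w ≤ J) (ω : F.Ω) (l a : ℕ) :
    jt (pvV F c w Nl H ω l) (rt F w ω) a = 2 ^ Nl l *
      (ojet F (c l) a (H (slam F w ω) l) ω / ((a.factorial : ℝ) * (2 ^ w) ^ a)) := by
  have h1 := ojet_tay F hW ω (c l) (fun s (_ : Fin m) => H (upw w w s) l) a
  rw [upw_slam F le_rfl hW] at h1
  rw [← h1]
  unfold jt pvV
  rw [Polynomial.taylor_mul, Polynomial.taylor_C, Polynomial.coeff_C_mul]

theorem sdV_coeff (ω : F.Ω) (l : Fin k) (a : Fin (K + 1)) :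
    sdV F c k w K Nl H ω l a = ⌊(pvV F c w Nl H ω l).coeff a⌋ := by
  unfold sdV pvV
  rw [Polynomial.coeff_C_mul]

theorem fl_dist {x y : ℝ} (h : ⌊x⌋ = ⌊y⌋) : |x - y| ≤ 1 := by
  have a1 := Int.floor_le x
  have a2 := Int.lt_floor_add_one x
  have b1 := Int.floor_le y
  have b2 := Int.lt_floor_add_one y
  rw [h] at a1 a2
  rw [abs_le]
  constructor <;> linarith

theorem rt_abs (hW : w ≤ J) (ω : F.Ω) : |rt F w ω| ≤ 1 := by
  have h := tw_mem F hW ω
  rw [tw_rt F hW ω] at h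
  rw [abs_le]
  constructor <;> linarith [h.1, h.2]

theorem rt_of_T (hW : w ≤ J) {ω ν : F.Ω} (h : F.T ω = F.T ν) : rt F w ω = rt F w ν := by
  rw [← tw_rt F hW, ← tw_rt F hW]
  exact tw_of_T F h

/-- **The jets from the codes.** -/
theorem sdV_near (hW : w ≤ J) (hH : ∀ s l, (H s l).totalDegree ≤ D) (hK : D + 1 ≤ K) {ω ν : F.Ω}
    (e : sdV F c k w K Nl H ω = sdV F c k w K Nl H ν) (hT : F.T ω = F.T ν) {l : ℕ} (hl : l < k)
    {a : ℕ} (ha : a ≤ 1) :
    |ojet F (c l) a (H (slam F w ω) l) ω - ojet F (c l) a (H (slam F w ν) l) ν| ≤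
      2 ^ (K + 1) * ((2 ^ w) ^ a / 2 ^ Nl l) := by
  have h1 : ∀ i, a ≤ i → i ≤ K → |(pvV F c w Nl H ω l).coeff i - (pvV F c w Nl H ν l).coeff i| ≤
      1 := by
    intro i _ hi
    have h2 := congrFun (congrFun e ⟨l, hl⟩) ⟨i, by omega⟩
    rw [sdV_coeff, sdV_coeff] at h2
    exact fl_dist h2
  have h2 := jt_dif (pvV_deg (c := c) (w := w) (Nl := Nl) hH hK ω l) (pvV_deg hH hK ν l)
    (rt_abs hW ω) zero_le_one h1
  have h3 : jt (pvV F c w Nl H ν l) (rt F w ω) a = jt (pvV F c w Nl H ν l) (rt F w ν) a := by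
    rw [rt_of_T hW hT]
  have hf : (a.factorial : ℝ) = 1 := by
    have : a = 0 ∨ a = 1 := by omega
    rcases this with h | h <;> rw [h] <;> simp
  rw [h3, pvV_jt hW ω l, pvV_jt hW ν l, hf, one_mul, ← mul_sub, ← sub_div, abs_mul, abs_div,
    abs_of_pos (by positivity : (0 : ℝ) < 2 ^ Nl l),
    abs_of_pos (by positivity : (0 : ℝ) < (2 ^ w) ^ a), mul_one] at h2
  have p1 : (0 : ℝ) < (2 ^ w) ^ a := by positivity
  have p2 : (0 : ℝ) < 2 ^ Nl l := by positivity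
  calc _ = 2 ^ Nl l * (|ojet F (c l) a (H (slam F w ω) l) ω -
        ojet F (c l) a (H (slam F w ν) l) ν| / (2 ^ w) ^ a) * ((2 ^ w) ^ a / 2 ^ Nl l) := by
        field_simp
    _ ≤ _ := mul_le_mul_of_nonneg_right h2 (by positivity)

/-- **Near heights** for equal codes. -/
theorem sdV_hgt (hW : w ≤ J) (hH : ∀ s l, (H s l).totalDegree ≤ D) (hK : D + 1 ≤ K) {ω ν : F.Ω}
    {G₀ : PtT F → ℕ → MvPolynomial (Option (Fin m)) ℝ}
    (e : sdV F c k w K Nl H ω = sdV F c k w K Nl H ν) (hT : F.T ω = F.T ν) {l : ℕ} (hl : l < k)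
    (h1 : G₀ (ptr F J ω) l = H (slam F w ω) l) (h2 : G₀ (ptr F J ν) l = H (slam F w ν) l) :
    |hgt F c G₀ ω l - hgt F c G₀ ν l| ≤ 2 ^ (K + 1) / 2 ^ Nl l := by
  have h := sdV_near hW hH hK e hT hl (Nat.zero_le 1)
  rw [hgt_ojet hW h1, hgt_ojet hW h2]
  refine h.trans (le_of_eq ?_)
  rw [pow_zero]
  ring

/-- Near integers for near numbers. -/
theorem fl_near_rp {x y σ δ B : ℝ} (h : |x - y| ≤ δ) (hB : (2 : ℝ) ^ σ * δ ≤ B) :
    |((⌊(2 : ℝ) ^ σ * x⌋ : ℤ) : ℝ) - (⌊(2 : ℝ) ^ σ * y⌋ : ℤ)| ≤ B + 1 :=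
  (fl_mul (Real.rpow_pos_of_pos two_pos _).le h).trans (by linarith)

/-- **The heights and velocities from the codes.** -/
theorem sdV_jets (hp : IsLaw p) (hW : w ≤ J) (hH : ∀ s l, (H s l).totalDegree ≤ D) (hK : D + 1 ≤ K)
    {ne Pe : ℕ → ℝ} (h0 : ∀ l < k, ne l * J ≤ Nl l) (h1 : ∀ l < k, Pe l * J + w ≤ Nl l) {β : Type}
    {Z : F.Ω → β} (hZ : Det p Z (sdV F c k w K Nl H)) (hZT : Det p Z F.T) :
    CH p (fun ω => (jh F c k w H ne ω, jv F c k w H Pe ω)) Z ≤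
      2 * (k * Real.log (2 * (2 ^ (K + 1) + 1) + 1)) := by
  have hn := hp.nonneg
  have a1 : CH p (jh F c k w H ne) Z ≤ k * Real.log (2 * (2 ^ (K + 1) + 1) + 1) := by
    have b0 : CH p (jh F c k w H ne) Z ≤ CH p (fun ω (l : Fin k) => jh F c k w H ne ω l 0) Z := by
      refine CH_mono_left hn fun ω ν _ _ e => ?_
      funext l j'
      by_cases hl : l < k ∧ j' = 0
      · obtain ⟨hl, rfl⟩ := hl
        exact congrFun (Prod.ext_iff.mp e).1 ⟨l, hl⟩
      · unfold jh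
        rw [if_neg hl, if_neg hl]
    refine b0.trans ?_
    refine ch_vecn hp _ Z (by positivity) fun ω ν hω hν e l => ?_
    unfold jh
    rw [if_pos ⟨l.2, rfl⟩, if_pos ⟨l.2, rfl⟩]
    refine fl_near_rp (sdV_near hW hH hK (hZ ω ν hω hν e) (hZT ω ν hω hν e) l.2
      (Nat.zero_le 1)) ?_
    rw [pow_zero, ← mul_assoc, mul_comm ((2 : ℝ) ^ (ne l * J)), mul_assoc]
    refine (mul_le_mul_of_nonneg_left ?_ (by positivity)).trans (le_of_eq (mul_one _))
    rw [mul_one_div, div_le_one (by positivity), ← Real.rpow_natCast 2 (Nl l)]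
    exact Real.rpow_le_rpow_of_exponent_le one_le_two (h0 l l.2)
  have a2 : CH p (jv F c k w H Pe) Z ≤ k * Real.log (2 * (2 ^ (K + 1) + 1) + 1) := by
    refine ch_vecn hp _ Z (by positivity) fun ω ν hω hν e l => ?_
    unfold jv
    refine fl_near_rp (sdV_near hW hH hK (hZ ω ν hω hν e) (hZT ω ν hω hν e) l.2 le_rfl) ?_
    rw [pow_one, ← mul_assoc, mul_comm ((2 : ℝ) ^ (Pe l * J)), mul_assoc]
    refine (mul_le_mul_of_nonneg_left ?_ (by positivity)).trans (le_of_eq (mul_one _))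
    rw [mul_div_assoc', div_le_one (by positivity), ← Real.rpow_natCast 2 (Nl l),
      ← Real.rpow_natCast 2 w, ← Real.rpow_add two_pos]
    exact Real.rpow_le_rpow_of_exponent_le one_le_two (h1 l l.2)
  have a3 := CH_subadd hn (jh F c k w H ne) (jv F c k w H Pe) Z
  linarith

/-- **The codes from the heights and the velocities.** -/
theorem sdV_few (hp : IsLaw p) (hW : w ≤ J) (hH : ∀ s l, (H s l).totalDegree ≤ D) (hK : D + 1 ≤ K)
    {ne Pe : ℕ → ℝ} (h0 : ∀ l < k, (Nl l : ℝ) ≤ ne l * J + 2)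
    (h1 : ∀ l < k, (Nl l : ℝ) ≤ Pe l * J + w + 2) {β : Type} {Z : F.Ω → β} {e₂ : ℝ}
    (hZ : Det p Z (fun ω => (jh F c k w H ne ω, jv F c k w H Pe ω))) (hZT : Det p Z F.W)
    (h2 : ∀ l < k, CH p (Pool.AVG71.cod F w 2 K (2 ^ Nl l) (c l) (fun s => upw w w s)
      (fun s => H s l)) F.W ≤ e₂) :
    CH p (sdV F c k w K Nl H) Z ≤
      k * e₂ + k * ((K + 1 : ℕ) * Real.log (2 * (2 ^ (K + 1) * (2 ^ (K + 1) * 4) + 1) + 1)) := by
  have hn := hp.nonneg
  have b1 := CH_le_add hn (sdV F c k w K Nl H) (sdT F c k w K Nl H) Z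
  have b2 : CH p (sdT F c k w K Nl H) Z ≤ k * e₂ := by
    refine ch_vec hn _ k (sdT F c k w K Nl H) fun l => ?_
    exact le_trans (CH_mono_cond hn fun ω ν hω hν e => hZT ω ν hω hν e) (h2 l l.2)
  have b3 : CH p (sdV F c k w K Nl H) (fun ω => (sdT F c k w K Nl H ω, Z ω)) ≤
      k * ((K + 1 : ℕ) * Real.log (2 * (2 ^ (K + 1) * (2 ^ (K + 1) * 4) + 1) + 1)) := by
    refine ch_vec hn _ k (sdV F c k w K Nl H) fun l => ?_
    refine ch_vecn hp _ _ (by positivity) fun ω ν hω hν e a => ?_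
    obtain ⟨e1, e2⟩ := Prod.ext_iff.mp e
    have e1' : sdT F c k w K Nl H ω = sdT F c k w K Nl H ν := e1
    obtain ⟨e3, e4⟩ := Prod.ext_iff.mp (hZ ω ν hω hν e2)
    have e3' : jh F c k w H ne ω = jh F c k w H ne ν := e3
    have e4' : jv F c k w H Pe ω = jv F c k w H Pe ν := e4
    have hT : F.T ω = F.T ν := (Prod.ext_iff.mp (hZT ω ν hω hν e2)).1
    have c2 : ∀ i, 2 ≤ i → i ≤ K → |(pvV F c w Nl H ω l).coeff i - (pvV F c w Nl H ν l).coeff i| ≤
        4 := by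
      intro i hi hiK
      have h3 := congrFun (congrFun e1' l) ⟨i, by omega⟩
      unfold sdT Pool.AVG71.cod at h3
      have hi' : 2 ≤ ((⟨i, by omega⟩ : Fin (K + 1)) : ℕ) := hi
      rw [if_pos hi', if_pos hi'] at h3
      have h4 : ⌊(pvV F c w Nl H ω l).coeff i⌋ = ⌊(pvV F c w Nl H ν l).coeff i⌋ := by
        unfold pvV
        rw [Polynomial.coeff_C_mul, Polynomial.coeff_C_mul]
        exact h3
      have h5 := fl_dist h4
      linarith
    have hj : ∀ {a : ℕ} {δ : ℝ}, a ≤ 1 → |ojet F (c l) a (H (slam F w ω) l) ω -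
        ojet F (c l) a (H (slam F w ν) l) ν| ≤ δ → 2 ^ Nl l * δ ≤ 4 * (2 ^ w) ^ a →
        |jt (pvV F c w Nl H ω l) (rt F w ω) a - jt (pvV F c w Nl H ν l) (rt F w ω) a| ≤ 4 := by
      intro a δ ha hd h3
      have h4 : jt (pvV F c w Nl H ν l) (rt F w ω) a = jt (pvV F c w Nl H ν l) (rt F w ν) a := by
        rw [rt_of_T hW hT]
      have hf : (a.factorial : ℝ) = 1 := by
        have : a = 0 ∨ a = 1 := by omega
        rcases this with h | h <;> rw [h] <;> simp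
      rw [h4, pvV_jt hW ω l, pvV_jt hW ν l, hf, one_mul, ← mul_sub, ← sub_div, abs_mul,
        abs_div, abs_of_pos (by positivity : (0 : ℝ) < 2 ^ Nl l),
        abs_of_pos (by positivity : (0 : ℝ) < (2 ^ w) ^ a), mul_div_assoc',
        div_le_iff₀ (by positivity)]
      exact (mul_le_mul_of_nonneg_left hd (by positivity)).trans h3
    have j0 : |jt (pvV F c w Nl H ω l) (rt F w ω) 0 - jt (pvV F c w Nl H ν l) (rt F w ω) 0| ≤
        4 := by
      have h3 := congrFun (congrFun e3' l) 0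
      unfold jh at h3
      rw [if_pos ⟨l.2, rfl⟩, if_pos ⟨l.2, rfl⟩] at h3
      refine hj (Nat.zero_le 1) (of_fl (Real.rpow_pos_of_pos two_pos _) h3) ?_
      rw [pow_zero, mul_one, mul_one_div, div_le_iff₀ (Real.rpow_pos_of_pos two_pos _)]
      have h5 : (4 : ℝ) = 2 ^ (2 : ℝ) := by norm_num
      rw [h5, ← Real.rpow_add two_pos, ← Real.rpow_natCast 2 (Nl l)]
      exact Real.rpow_le_rpow_of_exponent_le one_le_two (by linarith [h0 l l.2])
    have j1 : |jt (pvV F c w Nl H ω l) (rt F w ω) 1 - jt (pvV F c w Nl H ν l) (rt F w ω) 1| ≤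
        4 := by
      have h3 := congrFun e4' l
      unfold jv at h3
      refine hj le_rfl (of_fl (Real.rpow_pos_of_pos two_pos _) h3) ?_
      rw [pow_one, mul_one_div, div_le_iff₀ (Real.rpow_pos_of_pos two_pos _)]
      have h5 : (4 : ℝ) = 2 ^ (2 : ℝ) := by norm_num
      rw [h5, ← Real.rpow_natCast 2 w, ← Real.rpow_add two_pos, ← Real.rpow_add two_pos,
        ← Real.rpow_natCast 2 (Nl l)]
      exact Real.rpow_le_rpow_of_exponent_le one_le_two (by linarith [h1 l l.2])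
    obtain ⟨d1, d0⟩ := co_mix (pvV_deg hH hK ω l) (pvV_deg hH hK ν l) (rt_abs hW ω)
      (by norm_num) le_rfl c2 j1 j0
    have d2 : |(pvV F c w Nl H ω l).coeff a - (pvV F c w Nl H ν l).coeff a| ≤
        2 ^ (K + 1) * (2 ^ (K + 1) * 4) := by
      rcases Nat.eq_zero_or_pos (a : ℕ) with h5 | h5
      · rw [h5]
        exact d0
      · exact d1 a h5
    rw [sdV_coeff, sdV_coeff]
    exact (Pool.AVG5.fl_abs _ _).trans (by linarith)
  linarith

end

end Pool.KE30
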